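import Pool.Agent.U204.SP.Shifts
import Pool.Agent.U204.SP.Scales

/-!
# Bounded representation functions of dense sets: the inequalities at every scale
-/

set_option autoImplicit false

open Finset MeasureTheory Filter Topology

namespace Pool.Agent.U204.UN

open Pool.Agent.U204.RF Pool.Agent.U204.SP

/-- growth, explicit: if `a_(n+1) ≤ C (n + 1) ^ h` then `f(y) ^ h ≥ c / (1 - y)` -/
theorem growth' (h : ℕ) (hh : 1 ≤ h) {C : ℝ} (hC : 1 ≤ C) {A : Set ℕ} (hA : A.Infinite)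
    (hg : ∀ n : ℕ, (Nat.nth (· ∈ A) n : ℝ) ≤ C * ((n : ℝ) + 1) ^ h) {y : ℝ}
    (hy1 : 1 - 1 / (2 * C) < y) (hylt : y < 1) :
    1 / (4 ^ h * (2 * C)) * (1 - y)⁻¹ ≤ sv (chi A) y ^ h := by
  classical
  have hC0 : 0 < C := by linarith
  have hd0 : 0 < 1 - y := by linarith
  have hd1 : 2 * C * (1 - y) < 1 := by
    have : 1 - y < 1 / (2 * C) := by linarith
    rw [lt_div_iff₀ (by positivity)] at this
    linarith
  have hy0 : 0 ≤ y := by
    have : 2 * (1 - y) ≤ 2 * C * (1 - y) := by nlinarith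
    linarith
  -- the number of terms
  have hex : ∃ N : ℕ, 1 < 2 * C * (N : ℝ) ^ h * (1 - y) := by
    obtain ⟨N, hN⟩ := exists_nat_gt (1 / (2 * C * (1 - y)))
    refine ⟨N, ?_⟩
    rw [div_lt_iff₀ (by positivity)] at hN
    have hN0 : N ≠ 0 := by
      rintro rfl
      simp at hN
      linarith
    have hN1 : (1 : ℝ) ≤ N := by exact_mod_cast Nat.one_le_iff_ne_zero.2 hN0
    have : (N : ℝ) ≤ (N : ℝ) ^ h := by
      calc (N : ℝ) = (N : ℝ) ^ 1 := (pow_one _).symm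
        _ ≤ (N : ℝ) ^ h := pow_le_pow_right₀ hN1 hh
    have h3 : (N : ℝ) * (2 * C * (1 - y)) ≤ (N : ℝ) ^ h * (2 * C * (1 - y)) :=
      mul_le_mul_of_nonneg_right this (by positivity)
    linarith
  set N' := Nat.find hex with hN'
  have hspec := Nat.find_spec hex
  rw [← hN'] at hspec
  have hN'2 : 2 ≤ N' := by
    by_contra hc
    have h2 : (N' : ℝ) ≤ 1 := by
      have : N' ≤ 1 := by omega
      exact_mod_cast this
    have h3 : (N' : ℝ) ^ h ≤ 1 := pow_le_one₀ (Nat.cast_nonneg _) h2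
    have h4 : 2 * C * (N' : ℝ) ^ h * (1 - y) ≤ 2 * C * 1 * (1 - y) := by gcongr
    linarith
  obtain ⟨N, hNN⟩ : ∃ N, N' = N + 1 := ⟨N' - 1, by omega⟩
  have hN1 : 1 ≤ N := by omega
  have hmin : 2 * C * (N : ℝ) ^ h * (1 - y) ≤ 1 := by
    have := Nat.find_min hex (m := N) (by omega)
    exact not_lt.1 this
  rw [hNN] at hspec
  -- each of the first `N` elements contributes at least `1/2`
  have hterm : ∀ k < N, (1 : ℝ) / 2 ≤ y ^ (Nat.nth (· ∈ A) k) := by
    intro k hk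
    have h2 := hg k
    have h3 : ((k : ℝ) + 1) ^ h ≤ (N : ℝ) ^ h := by
      refine pow_le_pow_left₀ (by positivity) ?_ h
      exact_mod_cast hk
    have h4 : (Nat.nth (· ∈ A) k : ℝ) * (1 - y) ≤ 1 / 2 := by
      have h5 : (Nat.nth (· ∈ A) k : ℝ) * (1 - y) ≤ C * (N : ℝ) ^ h * (1 - y) :=
        mul_le_mul_of_nonneg_right (h2.trans (mul_le_mul_of_nonneg_left h3 hC0.le)) hd0.le
      linarith
    have h5 := one_add_mul_le_pow (a := y - 1) (by linarith) (Nat.nth (· ∈ A) k)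
    have e : 1 + (y - 1) = y := by ring
    rw [e] at h5
    linarith
  have hsum : (N : ℝ) / 2 ≤ sv (chi A) y := by
    have hinj : Function.Injective (Nat.nth (· ∈ A)) := Nat.nth_injective hA
    have hs := (good_chi A).summable hy0 hylt
    have h2 := hs.sum_le_tsum ((range N).image (Nat.nth (· ∈ A)))
      (fun n _ => mul_nonneg (chi_nonneg A n) (pow_nonneg hy0 n))
    rw [sum_image (fun a _ b _ hab => hinj hab)] at h2
    refine le_trans ?_ h2
    calc (N : ℝ) / 2 = ∑ k ∈ range N, (1 : ℝ) / 2 := by simp; ring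
      _ ≤ _ := by
        refine sum_le_sum fun k hk => ?_
        have h3 : Nat.nth (· ∈ A) k ∈ A := Nat.nth_mem_of_infinite hA k
        unfold chi
        rw [if_pos h3, one_mul]
        exact hterm k (mem_range.1 hk)
  have h6 : (((N + 1 : ℕ) : ℝ) / 4) ^ h ≤ sv (chi A) y ^ h := by
    refine pow_le_pow_left₀ (by positivity) ?_ h
    refine le_trans ?_ hsum
    push_cast
    have : (1 : ℝ) ≤ N := by exact_mod_cast hN1
    linarith
  refine le_trans ?_ h6
  rw [div_pow]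
  have h7 : 1 ≤ 2 * C * ((N + 1 : ℕ) : ℝ) ^ h * (1 - y) := hspec.le
  rw [div_mul_eq_mul_div, one_mul, div_le_div_iff₀ (by positivity) (by positivity),
    inv_mul_le_iff₀ hd0]
  have h8 : (0 : ℝ) < 4 ^ h := by positivity
  nlinarith

theorem one_sub_exp_le (x : ℝ) : 1 - Real.exp (-x) ≤ x := by
  linarith [Real.add_one_le_exp (-x)]

theorem half_le_one_sub_exp {x : ℝ} (h0 : 0 ≤ x) (h1 : x ≤ 1) : x / 2 ≤ 1 - Real.exp (-x) := by
  have h2 : Real.exp (-x) ≤ 1 / (1 + x) := by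
    rw [Real.exp_neg, ← one_div]
    apply one_div_le_one_div_of_le (by linarith)
    linarith [Real.add_one_le_exp x]
  have h3 : 1 / (1 + x) ≤ 1 - x / 2 := by
    rw [div_le_iff₀ (by linarith)]
    nlinarith
  linarith

/-- the energy inequality, counted, at every large scale -/
theorem core (j : ℕ) {K S η C : ℝ} (hη : 0 < η) (hK : 1 ≤ K) (hS : 1 ≤ S) (hC : 1 ≤ C) :
    ∃ (δ : ℝ) (t N₀ : ℕ), 0 < δ ∧ 1 ≤ t ∧ ∀ A : Set ℕ, A.Infinite →
      (∀ n : ℕ, (Nat.nth (· ∈ A) n : ℝ) ≤ C * ((n : ℝ) + 1) ^ (j + 2)) →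
      (∀ n, rr A (j + 2) n ≤ K) → ∀ N : ℕ, N₀ ≤ N → ∀ b : ℕ → ℝ, Wt b S →
      (∀ w : ℝ, 0 < w → w < 1 → w ^ N = Real.exp (-(t : ℝ)) →
        mu.real {θ : ℝ | ‖ev b (cz w θ)‖ < η} ≤ 1 / (4 * (4 * K))) →
      δ * N ≤ (((range N).filter fun n => δ ≤ |conv b (rr A (j + 2)) n|).card : ℝ) := by
  set q : ℝ := η ^ 2 / 4 ^ (j + 2) with hq
  have hq0 : 0 < q := by positivity
  have hS0 : 0 < S := by linarith
  have hK0 : 0 < K := by linarith
  have hC0 : 0 < C := by linarith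
  set κ : ℝ := 1 / (4 ^ (j + 2) * (2 * C)) with hκ
  have hκ0 : 0 < κ := by positivity
  obtain ⟨t₀, ht₀⟩ := exists_nat_gt (Real.log (16 * S ^ 2 * K ^ 2 / (q * κ)))
  set t := t₀ + 1 with ht
  have htr : (1 : ℝ) ≤ t := by
    rw [ht]; push_cast; linarith [(Nat.cast_nonneg t₀ : (0 : ℝ) ≤ t₀)]
  have ht0 : (0 : ℝ) < t := by linarith
  have het : Real.exp (-(t : ℝ)) * (16 * S ^ 2 * K ^ 2) ≤ q * κ := by
    have h1 : 16 * S ^ 2 * K ^ 2 / (q * κ) ≤ Real.exp t := by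
      have h2 : 0 < 16 * S ^ 2 * K ^ 2 / (q * κ) := by positivity
      calc _ = Real.exp (Real.log (16 * S ^ 2 * K ^ 2 / (q * κ))) := (Real.exp_log h2).symm
        _ ≤ _ := Real.exp_le_exp.2 (by rw [ht]; push_cast; linarith)
    rw [Real.exp_neg, inv_mul_le_iff₀ (Real.exp_pos _)]
    rw [div_le_iff₀ (by positivity)] at h1
    linarith
  set δ₁ : ℝ := q / (4 * S) with hδ₁
  have hδ₁0 : 0 < δ₁ := by positivity
  set δ₂ : ℝ := q * κ / (4 * t * (S * K) ^ 2) with hδ₂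
  have hδ₂0 : 0 < δ₂ := by positivity
  obtain ⟨N₀, hN₀⟩ := exists_nat_gt (4 * t * C)
  refine ⟨min δ₁ δ₂, t, N₀, lt_min hδ₁0 hδ₂0, by omega, fun A hA hg hr N hN b hb hV => ?_⟩
  have hNr : (N₀ : ℝ) ≤ N := by exact_mod_cast hN
  have hN4 : 4 * t * C < (N : ℝ) := lt_of_lt_of_le hN₀ hNr
  have hN1 : 4 * t ≤ (N : ℝ) := by nlinarith
  have hN0 : (0 : ℝ) < N := by linarith
  set w : ℝ := Real.exp (-((t : ℝ) / N)) with hw
  have hx0 : 0 < (t : ℝ) / N := by positivity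
  have hx1 : (t : ℝ) / N ≤ 1 := by rw [div_le_one hN0]; linarith
  have hw0 : 0 < w := Real.exp_pos _
  have hw1 : w < 1 := by
    rw [hw, Real.exp_lt_one_iff]; linarith
  have hwN : w ^ N = Real.exp (-(t : ℝ)) := by
    rw [hw, ← Real.exp_nat_mul]
    congr 1
    field_simp
  have hw2 : w ^ 2 = Real.exp (-(2 * ((t : ℝ) / N))) := by
    rw [hw, ← Real.exp_nat_mul]
    congr 1
    push_cast; ring
  have hw20 : 0 < w ^ 2 := by positivity
  have hw21 : w ^ 2 < 1 := by nlinarith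
  have hgap : 1 - w ^ 2 ≤ 2 * ((t : ℝ) / N) := by
    rw [hw2]; exact one_sub_exp_le _
  have hgap0 : 0 < 1 - w ^ 2 := by linarith
  set a := sv (chi A) (w ^ 2) with ha
  have hah' : κ * (N / (2 * t)) ≤ a ^ (j + 2) := by
    have h1 := growth' (j + 2) (by omega) hC hA hg (y := w ^ 2) (by
      have h2 : 2 * ((t : ℝ) / N) < 1 / (2 * C) := by
        rw [lt_div_iff₀ (by positivity)]
        have h3 : 2 * ((t : ℝ) / N) * (2 * C) = 4 * t * C / N := by ring
        rw [h3, div_lt_one hN0]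
        exact hN4
      linarith) hw21
    rw [← hκ] at h1
    refine le_trans (mul_le_mul_of_nonneg_left ?_ hκ0.le) h1
    have h2 : (N : ℝ) / (2 * t) = (2 * ((t : ℝ) / N))⁻¹ := by
      rw [mul_inv, inv_div]; ring
    rw [h2]
    exact inv_anti₀ hgap0 hgap
  have hah : 0 < a ^ (j + 2) := lt_of_lt_of_le (by positivity) hah'
  have ha0 : 0 < a := by
    have h1 : 0 ≤ a := sv_nonneg (chi_nonneg A) hw20.le
    rcases h1.lt_or_eq with h | h
    · exact h
    · rw [← h, zero_pow (by omega)] at hah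
      exact absurd hah (lt_irrefl _)
  have hsw : sv (chi A) w ^ (j + 2) ≤ 2 * K * (N / t) := by
    have h1 : sv (rr A (j + 2)) w = sv (chi A) w ^ (j + 2) := sv_r A (j + 2) hw0.le hw1
    rw [← h1]
    refine (sv_le_inv (rr_nonneg A (j + 2)) hr hw0.le hw1).trans ?_
    have h2 : (1 - w)⁻¹ ≤ 2 * (N / t) := by
      have h3 : (t : ℝ) / N / 2 ≤ 1 - w := half_le_one_sub_exp hx0.le hx1
      have h4 : 2 * ((N : ℝ) / t) = ((t : ℝ) / N / 2)⁻¹ := by
        rw [inv_div, div_div_eq_mul_div]; ring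
      rw [h4]
      exact inv_anti₀ (by positivity) h3
    calc K * (1 - w)⁻¹ ≤ K * (2 * (N / t)) := mul_le_mul_of_nonneg_left h2 hK0.le
      _ = _ := by ring
  set δ := min δ₁ δ₂ with hδ
  have hδ0 : 0 < δ := lt_min hδ₁0 hδ₂0
  have key := count_scale' A j hη hK hr hb hw0.le hw1 ha0 (hV w hw0 hw1 hwN) hδ0.le N
  set cnt : ℝ := (((range N).filter fun n => δ ≤ |conv b (rr A (j + 2)) n|).card : ℝ) with hcnt
  rw [← ha] at key
  have e1 : η ^ 2 * (a / 4) ^ (j + 2) = q * a ^ (j + 2) := by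
    rw [hq, div_pow]; ring
  have e2 : δ * (S * a ^ (j + 2)) ≤ q / 4 * a ^ (j + 2) := by
    calc δ * (S * a ^ (j + 2)) ≤ δ₁ * (S * a ^ (j + 2)) :=
          mul_le_mul_of_nonneg_right (min_le_left _ _) (by positivity)
      _ = q / 4 * a ^ (j + 2) := by rw [hδ₁]; field_simp
  have e3 : w ^ N * (S * K * (S * sv (chi A) w ^ (j + 2))) ≤ q / 4 * a ^ (j + 2) := by
    calc w ^ N * (S * K * (S * sv (chi A) w ^ (j + 2)))
        ≤ w ^ N * (S * K * (S * (2 * K * (N / t)))) := by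
          refine mul_le_mul_of_nonneg_left ?_ (by positivity)
          refine mul_le_mul_of_nonneg_left ?_ (by positivity)
          exact mul_le_mul_of_nonneg_left hsw hS0.le
      _ = Real.exp (-(t : ℝ)) * (16 * S ^ 2 * K ^ 2) * (N / (8 * t)) := by rw [hwN]; ring
      _ ≤ q * κ * (N / (8 * t)) := mul_le_mul_of_nonneg_right het (by positivity)
      _ = q / 4 * (κ * (N / (2 * t))) := by ring
      _ ≤ q / 4 * a ^ (j + 2) := mul_le_mul_of_nonneg_left hah' (by positivity)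
  rw [e1] at key
  have h7 : q / 2 * a ^ (j + 2) ≤ (S * K) ^ 2 * cnt := by linarith
  have h8 : q / 2 * (κ * (N / (2 * t))) ≤ (S * K) ^ 2 * cnt :=
    (mul_le_mul_of_nonneg_left hah' (by positivity)).trans h7
  calc δ * N ≤ δ₂ * N := mul_le_mul_of_nonneg_right (min_le_right _ _) hN0.le
    _ = (q / 2 * (κ * (N / (2 * t)))) / (S * K) ^ 2 := by rw [hδ₂]; field_simp; ring
    _ ≤ cnt := by
      rw [div_le_iff₀ (by positivity)]
      linarith

end Pool.Agent.U204.UN
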