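import Pool.Agent.U204.UN.Core

/-!
# Bounded representation functions of dense sets: sparse relations, periodic functions, predictors
-/

set_option autoImplicit false

open Finset MeasureTheory Filter Topology

namespace Pool.Agent.U204.UN

open Pool.Agent.U204.RF Pool.Agent.U204.SP

theorem conv_res (I : Finset ℕ) (b c : ℕ → ℝ) {n : ℕ} (hn : ∀ u ∈ I, u ≤ n) :
    conv (res I b) c n = ∑ u ∈ I, b u * c (n - u) := by
  classical
  unfold conv
  rw [Nat.sum_antidiagonal_eq_sum_range_succ (fun i k => res I b i * c k) n]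
  have h1 : (range (n + 1)).filter (fun x => x ∈ I) = I := by
    ext x
    rw [mem_filter, mem_range]
    exact ⟨fun h => h.2, fun h => ⟨by have := hn x h; omega, h⟩⟩
  conv_rhs => rw [← h1]
  rw [sum_filter]
  refine sum_congr rfl fun x _ => ?_
  unfold res
  split_ifs
  · rfl
  · rw [zero_mul]

/-- relations with at most `s` terms -/
theorem sparse (j s : ℕ) {K C : ℝ} (hK : 1 ≤ K) (hC : 1 ≤ C) :
    ∃ (ε : ℝ) (N₀ : ℕ), 0 < ε ∧ ε ≤ 1 ∧ ∀ A : Set ℕ, A.Infinite →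
      (∀ n : ℕ, (Nat.nth (· ∈ A) n : ℝ) ≤ C * ((n : ℝ) + 1) ^ (j + 2)) →
      (∀ n, rr A (j + 2) n ≤ K) → ∀ N : ℕ, N₀ ≤ N →
      ∀ I : Finset ℕ, I.card ≤ s → (∀ x ∈ I, (x : ℝ) ≤ ε * N) →
      ∀ b : ℕ → ℝ, (∃ v ∈ I, b v ≠ 0) →
      ε * N ≤ (((range N).filter fun n : ℕ => ε * N ≤ (n : ℝ) ∧ ∀ v ∈ I, ε * |b v| ≤
        |∑ u ∈ I, b u * rr A (j + 2) (n - u)|).card : ℝ) := by
  classical
  obtain ⟨η₀, hη₀, Hη⟩ := sparse_small s (1 / (4 * (4 * K))) (by positivity)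
  obtain ⟨δ, t, N₀, hδ, ht, H⟩ := core j (K := K) (S := (s : ℝ) + 1) (η := η₀ * Real.exp (-1))
    (C := C) (mul_pos hη₀ (Real.exp_pos _)) hK
    (by linarith [(Nat.cast_nonneg s : (0 : ℝ) ≤ s)]) hC
  have htr : (1 : ℝ) ≤ t := by exact_mod_cast ht
  have ht0 : (0 : ℝ) < t := by linarith
  obtain ⟨N₁, hN₁⟩ := exists_nat_gt (2 / δ)
  set ε : ℝ := min (1 / t) (δ / 4) with hε
  have hε0 : 0 < ε := lt_min (by positivity) (by positivity)
  have hεt : ε ≤ 1 / t := min_le_left _ _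
  have hεδ : ε ≤ δ / 4 := min_le_right _ _
  refine ⟨ε, max N₀ N₁, hε0, hεt.trans (by rw [div_le_one ht0]; exact htr),
    fun A hA hg hr N hN I hI hIN b hb => ?_⟩
  obtain ⟨i₁, hi₁, hbi₁⟩ := hb
  obtain ⟨i₀, hi₀, hmax⟩ := Finset.exists_max_image I (fun i => |b i|) ⟨i₁, hi₁⟩
  set m : ℝ := |b i₀| with hm
  have hm0 : 0 < m := lt_of_lt_of_le (abs_pos.2 hbi₁) (hmax i₁ hi₁)
  have hNr : (N₁ : ℝ) ≤ N := by exact_mod_cast (le_max_right N₀ N₁).trans hN
  have hN2 : 2 / δ < (N : ℝ) := lt_of_lt_of_le hN₁ hNr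
  have hN0 : (0 : ℝ) < N := lt_trans (by positivity) hN2
  have hNδ : 2 < δ * N := by rw [div_lt_iff₀ hδ] at hN2; linarith
  have hb1 : ∀ x ∈ I, |b x / m| ≤ 1 := fun x hx => by
    rw [abs_div, abs_of_pos hm0, div_le_one hm0]; exact hmax x hx
  have hbk : |b i₀ / m| = 1 := by rw [abs_div, abs_of_pos hm0, ← hm, div_self hm0.ne']
  have key := H A hA hg hr N ((le_max_left N₀ N₁).trans hN) (res I fun x => b x / m)
    (wt_res hI hb1) (fun w hw0 hw1 hwN => res_small Hη hI hi₀ hbk hw0 (by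
      by_contra hlt
      rw [not_le] at hlt
      have h1 : (w ^ i₀) ^ t < Real.exp (-1) ^ t :=
        pow_lt_pow_left₀ hlt (pow_pos hw0 _).le (by omega)
      rw [← pow_mul, ← Real.exp_nat_mul] at h1
      have h2 : (t : ℝ) * (-1) = -(t : ℝ) := by ring
      rw [h2, ← hwN] at h1
      have h3 : i₀ * t ≤ N := by
        have h4 : (i₀ : ℝ) * t ≤ N := by
          calc (i₀ : ℝ) * t ≤ (ε * N) * t := mul_le_mul_of_nonneg_right (hIN i₀ hi₀) ht0.le
            _ ≤ (1 / t * N) * t := by gcongr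
            _ = N := by field_simp
        exact_mod_cast h4
      exact absurd (pow_le_pow_of_le_one hw0.le hw1.le h3) (not_le.2 h1)))
  set G := (range N).filter fun n : ℕ => ε * N ≤ (n : ℝ) ∧ ∀ v ∈ I, ε * |b v| ≤
        |∑ u ∈ I, b u * rr A (j + 2) (n - u)| with hG
  have hsub : ((range N).filter fun n => δ ≤ |conv (res I fun x => b x / m) (rr A (j + 2)) n|) ⊆
      range ⌈ε * N⌉₊ ∪ G := by
    intro n hn
    rw [mem_filter, mem_range] at hn
    rw [mem_union]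
    by_cases hlt : (n : ℝ) < ε * N
    · left
      rw [mem_range]
      exact Nat.lt_ceil.2 hlt
    · right
      rw [not_lt] at hlt
      rw [hG, mem_filter, mem_range]
      refine ⟨hn.1, hlt, fun v hv => ?_⟩
      have h1 := hn.2
      rw [conv_res I (fun x => b x / m) (rr A (j + 2)) (fun u hu => by
        exact_mod_cast (hIN u hu).trans hlt)] at h1
      have h2 : ∑ u ∈ I, b u / m * rr A (j + 2) (n - u) =
          (∑ u ∈ I, b u * rr A (j + 2) (n - u)) / m := by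
        rw [sum_div]
        exact sum_congr rfl fun u _ => by ring
      rw [h2, abs_div, abs_of_pos hm0, le_div_iff₀ hm0] at h1
      calc ε * |b v| ≤ δ * m := by
            refine mul_le_mul (by linarith) (hmax v hv) (abs_nonneg _) hδ.le
        _ ≤ _ := h1
  have h1 : ((((range N).filter fun n =>
      δ ≤ |conv (res I fun x => b x / m) (rr A (j + 2)) n|).card : ℕ) : ℝ) ≤
      (⌈ε * N⌉₊ : ℝ) + (G.card : ℝ) := by
    have h2 := (card_le_card hsub).trans (card_union_le _ _)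
    rw [card_range] at h2
    exact_mod_cast h2
  have h3 : (⌈ε * N⌉₊ : ℝ) < ε * N + 1 := Nat.ceil_lt_add_one (by positivity)
  have h4 : ε * N ≤ δ / 4 * N := mul_le_mul_of_nonneg_right hεδ hN0.le
  linarith

/-- the distance from the solutions of a relation with at most `s` terms -/
theorem dist_of {s : ℕ} {ε : ℝ} {N : ℕ} (hε : 0 < ε) (hs : 1 ≤ s) {I : Finset ℕ}
    (hI : I.card ≤ s) (hIN : ∀ x ∈ I, (x : ℝ) ≤ ε * N) {b : ℕ → ℝ} (hb : ∃ v ∈ I, b v ≠ 0)
    {r : ℕ → ℝ}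
    (H : ε * N ≤ (((range N).filter fun n : ℕ => ε * N ≤ (n : ℝ) ∧ ∀ v ∈ I, ε * |b v| ≤
        |∑ u ∈ I, b u * r (n - u)|).card : ℝ))
    {P : ℕ → ℝ} (hP : ∀ n : ℕ, ε * N ≤ (n : ℝ) → n < N → ∑ u ∈ I, b u * P (n - u) = 0) :
    ε / s * N ≤ (((range N).filter fun n : ℕ => ε / s ≤ |r n - P n|).card : ℝ) := by
  classical
  have hs0 : (0 : ℝ) < s := by exact_mod_cast hs
  obtain ⟨i₁, hi₁, hbi₁⟩ := hb
  obtain ⟨i₀, hi₀, hmax⟩ := Finset.exists_max_image I (fun i => |b i|) ⟨i₁, hi₁⟩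
  set m : ℝ := |b i₀| with hm
  have hm0 : 0 < m := lt_of_lt_of_le (abs_pos.2 hbi₁) (hmax i₁ hi₁)
  set T := (range N).filter fun n : ℕ => ε / s ≤ |r n - P n| with hT
  set G := (range N).filter fun n : ℕ => ε * N ≤ (n : ℝ) ∧ ∀ v ∈ I, ε * |b v| ≤
        |∑ u ∈ I, b u * r (n - u)| with hG
  have hsub : G ⊆ I.biUnion fun u => T.image fun n => n + u := by
    intro n hn
    rw [hG, mem_filter, mem_range] at hn
    obtain ⟨h1, h2, h3⟩ := hn
    rw [mem_biUnion]
    by_contra hcon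
    push Not at hcon
    have h4 : ∀ u ∈ I, |r (n - u) - P (n - u)| < ε / s := by
      intro u hu
      have hun : u ≤ n := by exact_mod_cast (hIN u hu).trans h2
      by_contra h5
      rw [not_lt] at h5
      refine hcon u hu ?_
      rw [mem_image]
      refine ⟨n - u, ?_, by omega⟩
      rw [hT, mem_filter, mem_range]
      exact ⟨by omega, h5⟩
    have h5 : ∑ u ∈ I, b u * r (n - u) = ∑ u ∈ I, b u * (r (n - u) - P (n - u)) := by
      have h6 := hP n h2 h1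
      simp_rw [mul_sub]
      rw [sum_sub_distrib, h6, sub_zero]
    have h6 : |∑ u ∈ I, b u * r (n - u)| < ε * m := by
      rw [h5]
      calc |∑ u ∈ I, b u * (r (n - u) - P (n - u))|
          ≤ ∑ u ∈ I, |b u * (r (n - u) - P (n - u))| := abs_sum_le_sum_abs _ _
        _ = ∑ u ∈ I, |b u| * |r (n - u) - P (n - u)| := sum_congr rfl fun u _ => abs_mul _ _
        _ < ∑ u ∈ I, m * (ε / s) := by
            refine sum_lt_sum (fun u hu => ?_) ⟨i₀, hi₀, ?_⟩
            · exact mul_le_mul (hmax u hu) (h4 u hu).le (abs_nonneg _) hm0.le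
            · rw [← hm]
              exact mul_lt_mul_of_pos_left (h4 i₀ hi₀) hm0
        _ = (I.card : ℝ) * (m * (ε / s)) := by rw [sum_const, nsmul_eq_mul]
        _ ≤ (s : ℝ) * (m * (ε / s)) := by
            refine mul_le_mul_of_nonneg_right (by exact_mod_cast hI) (by positivity)
        _ = ε * m := by field_simp
    exact absurd (h3 i₀ hi₀) (not_le.2 h6)
  have h1 : G.card ≤ s * T.card := by
    calc G.card ≤ (I.biUnion fun u => T.image fun n => n + u).card := card_le_card hsub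
      _ ≤ ∑ u ∈ I, (T.image fun n => n + u).card := card_biUnion_le
      _ ≤ ∑ u ∈ I, T.card := sum_le_sum fun u _ => card_image_le
      _ = I.card * T.card := by rw [sum_const, smul_eq_mul]
      _ ≤ s * T.card := Nat.mul_le_mul_right _ hI
  have h2 : (G.card : ℝ) ≤ s * T.card := by exact_mod_cast h1
  rw [div_mul_eq_mul_div, div_le_iff₀ hs0]
  linarith

/-- the linear predictors of bounded weight -/
theorem predictor (j : ℕ) {K S C : ℝ} (hK : 1 ≤ K) (hS : 1 ≤ S) (hC : 1 ≤ C) :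
    ∃ (δ : ℝ) (N₀ : ℕ), 0 < δ ∧ ∀ A : Set ℕ, A.Infinite →
      (∀ n : ℕ, (Nat.nth (· ∈ A) n : ℝ) ≤ C * ((n : ℝ) + 1) ^ (j + 2)) →
      (∀ n, rr A (j + 2) n ≤ K) → ∀ N : ℕ, N₀ ≤ N → ∀ b : ℕ → ℝ, Pred b S →
      δ * N ≤ (((range N).filter fun n => δ ≤ |conv b (rr A (j + 2)) n|).card : ℝ) := by
  obtain ⟨δ, t, N₀, hδ, ht, H⟩ := core j (η := eta K S) (eta_pos K S) hK hS hC
  refine ⟨δ, N₀, hδ, fun A hA hg hr N hN b hb => ?_⟩
  refine H A hA hg hr N hN b ⟨hb.fin, hb.sum, hb.one⟩ fun w hw0 hw1 _ => ?_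
  obtain ⟨M, hM⟩ := hb.fin
  exact (small_rare b M hb.zero hM hb.one (hb.sum M) hw0.le hw1.le (eta_pos K S)
    (eta_lt_one (by linarith) hb.one)).trans (ratio_le hK hb.one)

section

variable {s : ℕ}

/-- the sums of subfamilies -/
def sg (q : Fin s → ℕ) (T : Finset (Fin s)) : ℕ := ∑ i ∈ T, q i

/-- the coefficients of `∏ (1 - z ^ q i)` -/
noncomputable def cf (q : Fin s → ℕ) (x : ℕ) : ℝ :=
  ∑ T ∈ (univ : Finset (Fin s)).powerset, if sg q T = x then (-1 : ℝ) ^ T.card else 0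

/-- the exponents -/
def ex (q : Fin s → ℕ) : Finset ℕ := (univ : Finset (Fin s)).powerset.image (sg q)

theorem card_ex (q : Fin s → ℕ) : (ex q).card ≤ 2 ^ s := by
  unfold ex
  refine card_image_le.trans ?_
  rw [card_powerset, card_univ, Fintype.card_fin]

theorem sum_cf (q : Fin s → ℕ) (f : ℕ → ℝ) (n : ℕ) :
    ∑ u ∈ ex q, cf q u * f (n - u) =
      ∑ T ∈ (univ : Finset (Fin s)).powerset, (-1 : ℝ) ^ T.card * f (n - sg q T) := by
  unfold cf
  simp_rw [sum_mul, ite_mul, zero_mul]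
  rw [sum_comm]
  refine sum_congr rfl fun T hT => ?_
  rw [sum_ite_eq, if_pos]
  exact mem_image_of_mem _ hT

theorem cf_zero {q : Fin s → ℕ} (hq : ∀ i, 1 ≤ q i) : cf q 0 = 1 := by
  unfold cf
  rw [Finset.sum_eq_single ∅]
  · simp [sg]
  · intro T _ hT
    rw [if_neg]
    intro h0
    obtain ⟨i, hi⟩ := Finset.nonempty_iff_ne_empty.2 hT
    have h1 : q i ≤ sg q T := single_le_sum (f := q) (fun _ _ => Nat.zero_le _) hi
    have := hq i
    omega
  · intro h
    exact absurd (mem_powerset.2 (empty_subset _)) h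

/-- the product of the difference operators kills the periodic functions -/
theorem kill (q : Fin s → ℕ) (P : Fin s → ℕ → ℝ) (hP : ∀ i n, P i (n + q i) = P i n) {n : ℕ}
    (hn : ∑ i, q i ≤ n) :
    ∑ u ∈ ex q, cf q u * ∑ i, P i (n - u) = 0 := by
  classical
  refine (sum_cf q (fun m => ∑ i, P i m) n).trans ?_
  simp_rw [mul_sum]
  rw [sum_comm]
  refine sum_eq_zero fun i _ => ?_
  have h1 : (univ : Finset (Fin s)) = insert i (univ.erase i) := (insert_erase (mem_univ i)).symm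
  rw [h1, sum_powerset_insert (notMem_erase i univ), ← sum_add_distrib]
  refine sum_eq_zero fun T hT => ?_
  have hiT : i ∉ T := fun h => (mem_erase.1 (mem_powerset.1 hT h)).1 rfl
  rw [card_insert_of_notMem hiT]
  have h2 : sg q (insert i T) = q i + sg q T := sum_insert hiT
  have h3 : q i + sg q T ≤ n := by
    rw [← h2]
    exact (sum_le_sum_of_subset (subset_univ _)).trans hn
  have h4 : P i (n - sg q T) = P i (n - sg q (insert i T)) := by
    rw [h2]
    have h5 := hP i (n - (q i + sg q T))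
    rw [← h5]
    congr 1
    omega
  rw [h4]
  ring

end

/-- sums of `s` periodic functions -/
theorem periodic (j s : ℕ) {K C : ℝ} (hK : 1 ≤ K) (hC : 1 ≤ C) :
    ∃ (ε : ℝ) (N₀ : ℕ), 0 < ε ∧ ∀ A : Set ℕ, A.Infinite →
      (∀ n : ℕ, (Nat.nth (· ∈ A) n : ℝ) ≤ C * ((n : ℝ) + 1) ^ (j + 2)) →
      (∀ n, rr A (j + 2) n ≤ K) → ∀ N : ℕ, N₀ ≤ N →
      ∀ q : Fin s → ℕ, (∀ i, 1 ≤ q i ∧ (q i : ℝ) ≤ ε * N) →
      ∀ P : Fin s → ℕ → ℝ, (∀ i n, P i (n + q i) = P i n) →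
      ε * N ≤ (((range N).filter fun n : ℕ => ε ≤ |rr A (j + 2) n - ∑ i, P i n|).card : ℝ) := by
  obtain ⟨ε, N₀, hε, hε1, H⟩ := sparse j (2 ^ s) hK hC
  have h2s : (0 : ℝ) < ((2 ^ s : ℕ) : ℝ) := by exact_mod_cast Nat.two_pow_pos s
  refine ⟨ε / ((2 ^ s : ℕ) : ℝ), N₀, by positivity, fun A hA hg hr N hN q hq P hP => ?_⟩
  have hN0 : (0 : ℝ) ≤ N := Nat.cast_nonneg N
  have hsum : ((∑ i, q i : ℕ) : ℝ) ≤ ε * N := by
    push_cast
    calc ∑ i, (q i : ℝ) ≤ ∑ _i : Fin s, ε / ((2 ^ s : ℕ) : ℝ) * N := sum_le_sum fun i _ => (hq i).2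
      _ = s * (ε / ((2 ^ s : ℕ) : ℝ) * N) := by rw [sum_const, card_univ, Fintype.card_fin, nsmul_eq_mul]
      _ = (s / ((2 ^ s : ℕ) : ℝ)) * (ε * N) := by ring
      _ ≤ 1 * (ε * N) := by
          refine mul_le_mul_of_nonneg_right ?_ (by positivity)
          rw [div_le_one h2s]
          exact_mod_cast (Nat.lt_two_pow_self (n := s)).le
      _ = ε * N := one_mul _
  have hIN : ∀ x ∈ ex q, (x : ℝ) ≤ ε * N := by
    intro x hx
    obtain ⟨T, -, rfl⟩ := mem_image.1 hx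
    refine le_trans ?_ hsum
    exact_mod_cast sum_le_sum_of_subset (f := q) (subset_univ T)
  have hb : ∃ v ∈ ex q, cf q v ≠ 0 := by
    refine ⟨0, mem_image.2 ⟨∅, mem_powerset.2 (empty_subset _), by simp [sg]⟩, ?_⟩
    rw [cf_zero fun i => (hq i).1]
    exact one_ne_zero
  refine dist_of hε (Nat.one_le_two_pow) (card_ex q) hIN hb
    (H A hA hg hr N hN (ex q) (card_ex q) hIN (cf q) hb) fun n h1 _ => ?_
  exact kill q P hP (by exact_mod_cast hsum.trans h1)

end Pool.Agent.U204.UN
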